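import Mathlib

/-!
Combinatorial data for the operator: a sequence `y k` of finitely supported vectors that is dense
in a suitable sense, and a fast growing sequence of times `τ k`.
-/

open Finset

namespace Pool.Agent.Q67.LYC

variable {𝕂 : Type} [RCLike 𝕂]

/-- size of the coordinates of level `0` -/
noncomputable def mu (y : Bool × ℕ →₀ 𝕂) : ℝ := max ‖y (false, 0)‖ ‖y (true, 0)‖

/-- `ℓ¹` norm -/
noncomputable def n1 (y : Bool × ℕ →₀ 𝕂) : ℝ := ∑ i ∈ y.support, ‖y i‖

/-- largest level -/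
noncomputable def dg (y : Bool × ℕ →₀ 𝕂) : ℕ := y.support.sup fun i => i.2

lemma mu_nonneg (y : Bool × ℕ →₀ 𝕂) : 0 ≤ mu y := le_max_of_le_left (norm_nonneg _)

lemma n1_nonneg (y : Bool × ℕ →₀ 𝕂) : 0 ≤ n1 y := Finset.sum_nonneg fun _ _ => norm_nonneg _

lemma norm_le_n1 (y : Bool × ℕ →₀ 𝕂) (i : Bool × ℕ) : ‖y i‖ ≤ n1 y := by
  by_cases h : i ∈ y.support
  · exact Finset.single_le_sum (f := fun i => ‖y i‖) (fun _ _ => norm_nonneg _) h
  · rw [Finsupp.notMem_support_iff.1 h, norm_zero]; exact n1_nonneg y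

lemma mu_le_n1 (y : Bool × ℕ →₀ 𝕂) : mu y ≤ n1 y :=
  max_le (norm_le_n1 y _) (norm_le_n1 y _)

lemma eq_zero_of_dg_lt (y : Bool × ℕ →₀ 𝕂) {i : Bool × ℕ} (h : dg y < i.2) : y i = 0 := by
  by_contra hne
  have : i ∈ y.support := Finsupp.mem_support_iff.2 hne
  have := Finset.le_sup (f := fun i : Bool × ℕ => i.2) this
  exact absurd h (not_lt.2 this)

/-- the second generator -/
noncomputable def b0 : Bool × ℕ →₀ 𝕂 := Finsupp.single (true, 0) 1

lemma mu_b0 : mu (b0 : Bool × ℕ →₀ 𝕂) = 1 := by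
  have h1 : (b0 : Bool × ℕ →₀ 𝕂) (false, 0) = 0 := by
    rw [b0, Finsupp.single_apply, if_neg (by decide)]
  have h2 : (b0 : Bool × ℕ →₀ 𝕂) (true, 0) = 1 := by
    rw [b0, Finsupp.single_apply, if_pos rfl]
  rw [mu, h1, h2]; simp

lemma n1_b0 : n1 (b0 : Bool × ℕ →₀ 𝕂) = 1 := by
  rw [n1, b0, Finsupp.support_single_ne_zero _ one_ne_zero, Finset.sum_singleton]
  simp

/-- approximation by finitely supported vectors with values in a dense set -/
lemma approx (v : Bool × ℕ →₀ 𝕂) (hv : 0 < mu v) {ε : ℝ} (hε : 0 < ε) :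
    ∃ f : Bool × ℕ → ℕ, ∀ y : Bool × ℕ →₀ 𝕂,
      y = ∑ i ∈ v.support, Finsupp.single i (TopologicalSpace.denseSeq 𝕂 (f i)) →
      0 < mu y ∧ (∑ i ∈ v.support, ‖v i - y i‖ * 2 ^ i.2) * (n1 y / mu y) < ε := by
  classical
  set s := v.support with hs
  -- the functions on the finite set
  let ext : (s → 𝕂) → (Bool × ℕ) → 𝕂 := fun w i => if h : i ∈ s then w ⟨i, h⟩ else 0
  have hext : ∀ i, Continuous fun w : s → 𝕂 => ext w i := by
    intro i
    by_cases h : i ∈ s
    · simp only [ext, h, dif_pos]; exact continuous_apply _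
    · simp only [ext, h, dif_neg, not_false_iff]; exact continuous_const
  let M : (s → 𝕂) → ℝ := fun w => max ‖ext w (false, 0)‖ ‖ext w (true, 0)‖
  let N : (s → 𝕂) → ℝ := fun w => ∑ i ∈ s, ‖ext w i‖
  let D : (s → 𝕂) → ℝ := fun w => ∑ i ∈ s, ‖v i - ext w i‖ * 2 ^ i.2
  have hM : Continuous M := (hext _).norm.max (hext _).norm
  have hN : Continuous N := continuous_finsetSum _ fun i _ => (hext i).norm
  have hD : Continuous D := continuous_finsetSum _ fun i _ =>
    ((continuous_const.sub (hext i)).norm.mul continuous_const)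
  let w0 : s → 𝕂 := fun i => v i
  have hw0 : ∀ i, ext w0 i = v i := by
    intro i
    by_cases h : i ∈ s
    · simp [ext, h, w0]
    · simp only [ext, h, dif_neg, not_false_iff]
      exact (Finsupp.notMem_support_iff.1 h).symm
  have hM0 : M w0 = mu v := by simp only [M, hw0, mu]
  have hD0 : D w0 = 0 := by simp only [D, hw0, sub_self, norm_zero, zero_mul, Finset.sum_const_zero]
  have hMpos : 0 < M w0 := hM0 ▸ hv
  have hF : ContinuousAt (fun w => D w * (N w / M w)) w0 :=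
    hD.continuousAt.mul (hN.continuousAt.div hM.continuousAt hMpos.ne')
  have hev : ∀ᶠ w in nhds w0, 0 < M w ∧ D w * (N w / M w) < ε := by
    refine (hM.continuousAt.eventually_const_lt hMpos).and (hF.eventually_lt_const ?_)
    simp only [hD0, zero_mul]; exact hε
  obtain ⟨O, hO, hOo, hw0O⟩ := eventually_nhds_iff.1 hev
  have hdense : Dense (Set.pi Set.univ fun _ : s => Set.range (TopologicalSpace.denseSeq 𝕂)) :=
    dense_pi _ fun _ _ => TopologicalSpace.denseRange_denseSeq 𝕂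
  obtain ⟨w, hwO, hw⟩ := hdense.inter_open_nonempty O hOo ⟨w0, hw0O⟩
  have hw' : ∀ i : s, ∃ n, TopologicalSpace.denseSeq 𝕂 n = w i := fun i => hw i (Set.mem_univ _)
  choose g hg using hw'
  refine ⟨fun i => if h : i ∈ s then g ⟨i, h⟩ else 0, fun y hy => ?_⟩
  have hyi : ∀ i, y i = ext w i := by
    intro i
    rw [hy, Finsupp.finset_sum_apply]
    by_cases h : i ∈ s
    · rw [Finset.sum_eq_single i]
      · simp [h, ext, hg]
      · intro j _ hj
        rw [Finsupp.single_apply, if_neg hj]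
      · intro h'; exact absurd h h'
    · simp only [ext, h, dif_neg, not_false_iff]
      refine Finset.sum_eq_zero fun j hj => ?_
      rw [Finsupp.single_apply, if_neg]
      rintro rfl; exact h hj
  have hn1 : n1 y = N w := by
    rw [n1]
    simp only [N]
    have hsub : y.support ⊆ s := by
      intro i hi
      by_contra hne
      have : y i = 0 := by rw [hyi]; simp [ext, hne]
      exact (Finsupp.mem_support_iff.1 hi) this
    rw [Finset.sum_subset hsub]
    · exact Finset.sum_congr rfl fun i _ => by rw [hyi]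
    · intro i _ hi
      rw [Finsupp.notMem_support_iff.1 hi, norm_zero]
  have hmu : mu y = M w := by simp only [mu, M, hyi]
  obtain ⟨h1, h2⟩ := hO w hwO
  refine ⟨hmu ▸ h1, ?_⟩
  rw [hn1, hmu]
  simpa only [D, hyi] using h2

/-- The data. -/
structure Data (𝕂 : Type) [RCLike 𝕂] where
  y : ℕ → (Bool × ℕ →₀ 𝕂)
  τ : ℕ → ℕ
  y_zero : y 0 = b0
  mu_pos : ∀ k, 0 < mu (y k)
  τ_zero : τ 0 = 0
  dense : ∀ v : Bool × ℕ →₀ 𝕂, 0 < mu v → ∀ ε : ℝ, 0 < ε → ∀ N : ℕ, ∃ k, N ≤ k ∧
    y k = y k ∧ (y k).support ⊆ v.support ∧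
    (∑ i ∈ v.support, ‖v i - y k i‖ * 2 ^ i.2) * (n1 (y k) / mu (y k)) < ε
  star : ∀ i k, i < k → (n1 (y i) + 1) * (n1 (y k) / mu (y k) + k + 1) * (i + 1) *
    2 ^ (τ i + 1 + dg (y k) + dg (y i)) ≤ (2 : ℝ) ^ (τ k)

theorem exists_data (𝕂 : Type) [RCLike 𝕂] : Nonempty (Data 𝕂) := by
  classical
  obtain ⟨e, he⟩ := exists_surjective_nat (Finset (Bool × ℕ) × ((Bool × ℕ) →₀ ℕ))
  let w : Finset (Bool × ℕ) × ((Bool × ℕ) →₀ ℕ) → (Bool × ℕ →₀ 𝕂) := fun p =>
    ∑ i ∈ p.1, Finsupp.single i (TopologicalSpace.denseSeq 𝕂 (p.2 i))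
  let y : ℕ → (Bool × ℕ →₀ 𝕂) := fun k =>
    if k = 0 then b0 else if 0 < mu (w (e (Nat.unpair k).1)) then w (e (Nat.unpair k).1) else b0
  let R : ℕ → ℕ → ℝ := fun i k => (n1 (y i) + 1) * (n1 (y k) / mu (y k) + k + 1) * (i + 1)
  let B : ℕ → ℕ → ℕ := fun i k => 1 + dg (y k) + dg (y i) + Nat.ceil (R i k)
  let bb : ℕ → ℕ := fun k => ∑ i ∈ range k, B i k
  let τ : ℕ → ℕ := fun k => ∑ j ∈ range (k + 1), bb j
  refine ⟨⟨y, τ, ?_, ?_, ?_, ?_, ?_⟩⟩
  · simp [y]
  · intro k
    simp only [y]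
    split_ifs with h1 h2
    · rw [mu_b0]; norm_num
    · exact h2
    · rw [mu_b0]; norm_num
  · simp [τ, bb]
  · intro v hv ε hε N
    obtain ⟨f, hf⟩ := approx v hv hε
    obtain ⟨n, hn⟩ := he (v.support, Finsupp.onFinset v.support
      (fun i => if i ∈ v.support then f i else 0) (by intro i hi; by_contra h; simp [h] at hi))
    have hwn : w (e n) = ∑ i ∈ v.support, Finsupp.single i (TopologicalSpace.denseSeq 𝕂 (f i)) := by
      rw [hn]
      simp only [w]
      refine Finset.sum_congr rfl fun i hi => ?_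
      rw [Finsupp.onFinset_apply, if_pos hi]
    obtain ⟨g1, g2⟩ := hf (w (e n)) hwn
    have hk : y (Nat.pair n (N + 1)) = w (e n) := by
      have h0 : Nat.pair n (N + 1) ≠ 0 := by
        have := Nat.right_le_pair n (N + 1)
        omega
      simp only [y, h0, if_false, Nat.unpair_pair, g1, if_true]
    refine ⟨Nat.pair n (N + 1), ?_, rfl, ?_, ?_⟩
    · have := Nat.right_le_pair n (N + 1)
      omega
    · rw [hk, hwn]
      intro i hi
      by_contra h
      apply Finsupp.mem_support_iff.1 hi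
      rw [Finsupp.finset_sum_apply]
      refine Finset.sum_eq_zero fun j hj => ?_
      rw [Finsupp.single_apply, if_neg]
      rintro rfl; exact h hj
    · rw [hk]; exact g2
  · intro i k hik
    have hR : 0 ≤ R i k := by
      have h1 := n1_nonneg (y i)
      have h2 := div_nonneg (n1_nonneg (y k)) (mu_nonneg (y k))
      positivity
    have h1 : τ i + B i k ≤ τ k := by
      have : τ k = τ i + ∑ j ∈ Finset.Ico (i + 1) (k + 1), bb j := by
        simp only [τ]
        rw [Finset.sum_range_add_sum_Ico _ (by omega)]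
      rw [this]
      have h2 : bb k ≤ ∑ j ∈ Finset.Ico (i + 1) (k + 1), bb j :=
        Finset.single_le_sum (f := bb) (fun _ _ => Nat.zero_le _) (by simp; omega)
      have h3 : B i k ≤ bb k :=
        Finset.single_le_sum (f := fun i => B i k) (fun _ _ => Nat.zero_le _) (by simpa using hik)
      omega
    have h2 : R i k ≤ (2 : ℝ) ^ (Nat.ceil (R i k)) := by
      calc R i k ≤ (Nat.ceil (R i k) : ℝ) := Nat.le_ceil _
        _ ≤ ((2 ^ Nat.ceil (R i k) : ℕ) : ℝ) := by exact_mod_cast (Nat.lt_two_pow_self).le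
        _ = _ := by push_cast; rfl
    calc R i k * 2 ^ (τ i + 1 + dg (y k) + dg (y i))
        ≤ (2 : ℝ) ^ (Nat.ceil (R i k)) * 2 ^ (τ i + 1 + dg (y k) + dg (y i)) :=
          mul_le_mul_of_nonneg_right h2 (by positivity)
      _ = (2 : ℝ) ^ (τ i + B i k) := by
          rw [← pow_add]; congr 1; simp only [B]; omega
      _ ≤ (2 : ℝ) ^ τ k := pow_le_pow_right₀ (by norm_num) h1

end Pool.Agent.Q67.LYC
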