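import Mathlib
import Pool.Agent.Q67.LYC.Data

/-!
The norm on finitely supported vectors and its main properties.
-/

open Finset

namespace Pool.Agent.Q67.LYC

variable {𝕂 : Type} [RCLike 𝕂]

/-- shift of the level -/
def sh (n : ℕ) (i : Bool × ℕ) : Bool × ℕ := (i.1, i.2 + n)

/-- pairing -/
noncomputable def pr (ψ : Bool × ℕ → 𝕂) : (Bool × ℕ →₀ 𝕂) →ₗ[𝕂] 𝕂 := Finsupp.linearCombination 𝕂 ψ

lemma pr_apply (ψ : Bool × ℕ → 𝕂) (x : Bool × ℕ →₀ 𝕂) : pr ψ x = ∑ i ∈ x.support, x i * ψ i := by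
  rw [pr, Finsupp.linearCombination_apply, Finsupp.sum]; rfl

lemma pr_smul (c : 𝕂) (ψ : Bool × ℕ → 𝕂) (x : Bool × ℕ →₀ 𝕂) : pr (fun i => c * ψ i) x = c * pr ψ x := by
  rw [pr_apply, pr_apply, Finset.mul_sum]
  exact Finset.sum_congr rfl fun i _ => by ring

lemma norm_pr_le (ψ : Bool × ℕ → 𝕂) (x : Bool × ℕ →₀ 𝕂) {C : ℝ} (hC : ∀ i, ‖ψ i‖ ≤ C) :
    ‖pr ψ x‖ ≤ n1 x * C := by
  rw [pr_apply]
  refine (norm_sum_le _ _).trans ?_
  rw [n1, Finset.sum_mul]
  refine Finset.sum_le_sum fun i _ => ?_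
  rw [norm_mul]
  exact mul_le_mul_of_nonneg_left (hC i) (norm_nonneg _)

/-- The operator on finitely supported vectors -/
noncomputable def S : (Bool × ℕ →₀ 𝕂) →ₗ[𝕂] (Bool × ℕ →₀ 𝕂) := Finsupp.lmapDomain 𝕂 𝕂 (sh 1)

lemma pr_S (ψ : Bool × ℕ → 𝕂) (x : Bool × ℕ →₀ 𝕂) : pr ψ (S x) = pr (ψ ∘ sh 1) x := by
  rw [pr, S, Finsupp.lmapDomain_apply, Finsupp.linearCombination_mapDomain]; rfl

lemma pr_S_pow (n : ℕ) (ψ : Bool × ℕ → 𝕂) (x : Bool × ℕ →₀ 𝕂) :
    pr ψ ((S ^ n) x) = pr (ψ ∘ sh n) x := by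
  induction n generalizing ψ with
  | zero => rfl
  | succ n ih =>
    rw [pow_succ', Module.End.mul_apply, pr_S, ih]
    congr 2

/-- The dual ball. -/
def Fam (d : Data 𝕂) : Set (Bool × ℕ → 𝕂) :=
  {ψ | (∀ (k : ℕ) (i : Bool × ℕ), d.τ k ≤ i.2 →
      2 ^ (d.τ k) * ‖ψ i‖ ≤ (n1 (d.y k) / mu (d.y k)) * 2 ^ i.2) ∧
    ∀ k m : ℕ, d.τ k ≤ m → ((k : ℝ) + 1) * 2 ^ (d.τ k) * ‖pr (ψ ∘ sh m) (d.y k)‖ ≤ 2 ^ m}

variable (d : Data 𝕂)

lemma H_ge_one (k : ℕ) : 1 ≤ n1 (d.y k) / mu (d.y k) :=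
  (one_le_div (d.mu_pos k)).2 (mu_le_n1 _)

lemma zero_mem : (0 : Bool × ℕ → 𝕂) ∈ Fam d := by
  refine ⟨fun k i _ => ?_, fun k m _ => ?_⟩
  · have := H_ge_one d k
    simp only [Pi.zero_apply, norm_zero, mul_zero]
    positivity
  · have : pr ((0 : Bool × ℕ → 𝕂) ∘ sh m) (d.y k) = 0 := by
      rw [pr_apply]; exact Finset.sum_eq_zero fun i _ => by simp
    rw [this, norm_zero, mul_zero]
    positivity

instance : Nonempty (Fam d) := ⟨⟨0, zero_mem d⟩⟩

/-- values of functionals in the family -/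
lemma bound_zero {ψ : Bool × ℕ → 𝕂} (hψ : ψ ∈ Fam d) (i : Bool × ℕ) : ‖ψ i‖ ≤ 2 ^ i.2 := by
  have := hψ.1 0 i (by rw [d.τ_zero]; exact Nat.zero_le _)
  rw [d.τ_zero, d.y_zero, n1_b0, mu_b0] at this
  simpa using this

lemma half_shift {ψ : Bool × ℕ → 𝕂} (hψ : ψ ∈ Fam d) : (fun i => (1 / 2 : 𝕂) * ψ (sh 1 i)) ∈ Fam d := by
  have h2 : ‖(1 / 2 : 𝕂)‖ = 1 / 2 := by
    rw [norm_div, norm_one, RCLike.norm_ofNat]
  refine ⟨fun k i hk => ?_, fun k m hm => ?_⟩
  · have := hψ.1 k (sh 1 i) (by simp only [sh]; omega)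
    simp only [sh] at this ⊢
    rw [norm_mul, h2]
    rw [pow_succ] at this
    linarith
  · have h1 : pr ((fun i => (1 / 2 : 𝕂) * ψ (sh 1 i)) ∘ sh m) (d.y k) =
        (1 / 2 : 𝕂) * pr (ψ ∘ sh (m + 1)) (d.y k) := by
      rw [← pr_smul]
      congr 2
    rw [h1, norm_mul, h2]
    have := hψ.2 k (m + 1) (by omega)
    rw [pow_succ] at this
    linarith

/-- The norm. -/
noncomputable def N (x : Bool × ℕ →₀ 𝕂) : ℝ := ⨆ ψ : Fam d, ‖pr ψ.1 x‖

lemma bdd (x : Bool × ℕ →₀ 𝕂) : BddAbove (Set.range fun ψ : Fam d => ‖pr ψ.1 x‖) := by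
  refine ⟨∑ i ∈ x.support, ‖x i‖ * 2 ^ i.2, ?_⟩
  rintro _ ⟨ψ, rfl⟩
  simp only
  rw [pr_apply]
  refine (norm_sum_le _ _).trans (Finset.sum_le_sum fun i _ => ?_)
  rw [norm_mul]
  exact mul_le_mul_of_nonneg_left (bound_zero d ψ.2 i) (norm_nonneg _)

lemma le_N {ψ : Bool × ℕ → 𝕂} (hψ : ψ ∈ Fam d) (x : Bool × ℕ →₀ 𝕂) : ‖pr ψ x‖ ≤ N d x :=
  le_ciSup (bdd d x) ⟨ψ, hψ⟩

lemma N_le {x : Bool × ℕ →₀ 𝕂} {C : ℝ} (h : ∀ ψ ∈ Fam d, ‖pr ψ x‖ ≤ C) : N d x ≤ C :=
  ciSup_le fun ψ => h ψ.1 ψ.2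

lemma N_nonneg (x : Bool × ℕ →₀ 𝕂) : 0 ≤ N d x := (norm_nonneg _).trans (le_N d (zero_mem d) x)

lemma N_add (x y : Bool × ℕ →₀ 𝕂) : N d (x + y) ≤ N d x + N d y := by
  refine N_le d fun ψ hψ => ?_
  rw [map_add]
  exact (norm_add_le _ _).trans (add_le_add (le_N d hψ x) (le_N d hψ y))

lemma N_smul_le (c : 𝕂) (x : Bool × ℕ →₀ 𝕂) : N d (c • x) ≤ ‖c‖ * N d x := by
  refine N_le d fun ψ hψ => ?_
  rw [map_smul, norm_smul]
  exact mul_le_mul_of_nonneg_left (le_N d hψ x) (norm_nonneg _)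

lemma N_smul (c : 𝕂) (x : Bool × ℕ →₀ 𝕂) : N d (c • x) = ‖c‖ * N d x := by
  refine le_antisymm (N_smul_le d c x) ?_
  by_cases hc : c = 0
  · subst hc; simp only [norm_zero, zero_mul]; exact N_nonneg d _
  · have h := N_smul_le d c⁻¹ (c • x)
    rw [smul_smul, inv_mul_cancel₀ hc, one_smul, norm_inv] at h
    have hc' : 0 < ‖c‖ := norm_pos_iff.2 hc
    calc ‖c‖ * N d x ≤ ‖c‖ * (‖c‖⁻¹ * N d (c • x)) := mul_le_mul_of_nonneg_left h hc'.le
      _ = N d (c • x) := by rw [← mul_assoc, mul_inv_cancel₀ hc'.ne', one_mul]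

lemma N_S (x : Bool × ℕ →₀ 𝕂) : N d (S x) ≤ 2 * N d x := by
  refine N_le d fun ψ hψ => ?_
  rw [pr_S]
  have h1 : pr (ψ ∘ sh 1) x = 2 * pr (fun i => (1 / 2 : 𝕂) * ψ (sh 1 i)) x := by
    have h0 := pr_smul (1 / 2 : 𝕂) (fun i => ψ (sh 1 i)) x
    rw [h0, ← mul_assoc]
    norm_num
    rfl
  rw [h1, norm_mul, RCLike.norm_ofNat]
  exact mul_le_mul_of_nonneg_left (le_N d (half_shift d hψ) x) (by norm_num)

/-! ### Smallness -/

lemma N_stage (k : ℕ) : N d ((S ^ (d.τ k)) (d.y k)) ≤ 1 / ((k : ℝ) + 1) := by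
  refine N_le d fun ψ hψ => ?_
  rw [pr_S_pow]
  have h := hψ.2 k (d.τ k) le_rfl
  have h2 : (0 : ℝ) < 2 ^ (d.τ k) := by positivity
  rw [le_div_iff₀ (by positivity)]
  have : (2 : ℝ) ^ (d.τ k) * (‖pr (ψ ∘ sh (d.τ k)) (d.y k)‖ * ((k : ℝ) + 1)) ≤ 2 ^ (d.τ k) * 1 := by
    rw [mul_one]; refine le_trans (le_of_eq ?_) h; ring
  exact le_of_mul_le_mul_left this h2

lemma N_pow_stage (k : ℕ) (w : Bool × ℕ →₀ 𝕂) : N d ((S ^ (d.τ k)) w) ≤
    (∑ i ∈ w.support, ‖w i‖ * 2 ^ i.2) * (n1 (d.y k) / mu (d.y k)) := by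
  refine N_le d fun ψ hψ => ?_
  rw [pr_S_pow, pr_apply, Finset.sum_mul]
  refine (norm_sum_le _ _).trans (Finset.sum_le_sum fun i _ => ?_)
  rw [norm_mul]
  have h := hψ.1 k (sh (d.τ k) i) (by simp only [sh]; omega)
  have h2 : (0 : ℝ) < 2 ^ (d.τ k) := by positivity
  have h3 : ‖ψ (sh (d.τ k) i)‖ ≤ (n1 (d.y k) / mu (d.y k)) * 2 ^ i.2 := by
    have : (2 : ℝ) ^ (d.τ k) * ‖ψ (sh (d.τ k) i)‖ ≤ 2 ^ (d.τ k) * ((n1 (d.y k) / mu (d.y k)) * 2 ^ i.2) := by
      refine h.trans (le_of_eq ?_)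
      simp only [sh]
      rw [pow_add]; ring
    exact le_of_mul_le_mul_left this h2
  calc ‖w i‖ * ‖(ψ ∘ sh (d.τ k)) i‖ ≤ ‖w i‖ * ((n1 (d.y k) / mu (d.y k)) * 2 ^ i.2) :=
        mul_le_mul_of_nonneg_left h3 (norm_nonneg _)
    _ = _ := by ring

/-- The vectors with a nonzero coordinate of level `0` have small orbit elements. -/
lemma small {v : Bool × ℕ →₀ 𝕂} (hv : 0 < mu v) {ε : ℝ} (hε : 0 < ε) (M : ℕ) :
    ∃ n, M ≤ n ∧ N d ((S ^ n) v) ≤ ε := by
  obtain ⟨K, hK⟩ := exists_nat_gt (2 / ε)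
  obtain ⟨k, hk1, _, hk2, hk3⟩ := d.dense v hv (ε / 2) (by positivity) (M + K)
  refine ⟨d.τ k, ?_, ?_⟩
  · -- `k ≤ τ k`
    have hle : ∀ k, k ≤ d.τ k := by
      intro k
      induction k with
      | zero => exact Nat.zero_le _
      | succ k ih =>
        have h := d.star k (k + 1) (Nat.lt_succ_self k)
        have h1 := n1_nonneg (d.y k)
        have h2 := H_ge_one d (k + 1)
        have h3 : (2 : ℝ) ^ (d.τ k + 1) ≤ 2 ^ (d.τ (k + 1)) := by
          refine le_trans ?_ h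
          have h4 : (2 : ℝ) ^ (d.τ k + 1) ≤ 2 ^ (d.τ k + 1 + dg (d.y (k + 1)) + dg (d.y k)) :=
            pow_le_pow_right₀ (by norm_num) (by omega)
          have h5 : (1 : ℝ) ≤ (n1 (d.y k) + 1) * (n1 (d.y (k + 1)) / mu (d.y (k + 1)) +
              ((k + 1 : ℕ) : ℝ) + 1) * ((k : ℝ) + 1) := by
            have a1 : (1 : ℝ) ≤ n1 (d.y k) + 1 := by linarith
            have a2 : (1 : ℝ) ≤ n1 (d.y (k + 1)) / mu (d.y (k + 1)) + ((k + 1 : ℕ) : ℝ) + 1 := by
              have : (0 : ℝ) ≤ ((k + 1 : ℕ) : ℝ) := by positivity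
              linarith
            have a3 : (1 : ℝ) ≤ (k : ℝ) + 1 := by
              have : (0 : ℝ) ≤ (k : ℝ) := by positivity
              linarith
            exact one_le_mul_of_one_le_of_one_le (one_le_mul_of_one_le_of_one_le a1 a2) a3
          calc (2 : ℝ) ^ (d.τ k + 1) ≤ 2 ^ (d.τ k + 1 + dg (d.y (k + 1)) + dg (d.y k)) := h4
            _ = 1 * 2 ^ (d.τ k + 1 + dg (d.y (k + 1)) + dg (d.y k)) := (one_mul _).symm
            _ ≤ _ := mul_le_mul_of_nonneg_right h5 (by positivity)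
        have := (pow_le_pow_iff_right₀ (by norm_num : (1 : ℝ) < 2)).1 h3
        omega
    have := hle k
    omega
  · have hsplit : (S ^ (d.τ k)) v = (S ^ (d.τ k)) (d.y k) + (S ^ (d.τ k)) (v - d.y k) := by
      rw [← map_add]; congr 1; abel
    rw [hsplit]
    refine (N_add d _ _).trans ?_
    have h1 : N d ((S ^ (d.τ k)) (d.y k)) ≤ ε / 2 := by
      refine (N_stage d k).trans ?_
      rw [div_le_iff₀ (by positivity)]
      have : (K : ℝ) ≤ k := by exact_mod_cast (by omega : K ≤ k)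
      rw [div_lt_iff₀ hε] at hK
      nlinarith
    have h2 : N d ((S ^ (d.τ k)) (v - d.y k)) ≤ ε / 2 := by
      refine (N_pow_stage d k _).trans (le_trans ?_ hk3.le)
      refine mul_le_mul_of_nonneg_right ?_ (le_trans zero_le_one (H_ge_one d k))
      have hsub : (v - d.y k).support ⊆ v.support := by
        classical
        refine (Finsupp.support_sub).trans ?_
        exact Finset.union_subset (Finset.Subset.refl _) hk2
      refine (Finset.sum_le_sum_of_subset_of_nonneg hsub fun _ _ _ => by positivity).trans ?_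
      exact le_of_eq (Finset.sum_congr rfl fun i _ => by rw [Finsupp.sub_apply])
    linarith

/-! ### Largeness -/

lemma mono_tau {i k : ℕ} (h : i < k) : d.τ i < d.τ k := by
  have h0 := d.star i k h
  have h1 := n1_nonneg (d.y i)
  have h2 := H_ge_one d k
  have h3 : (2 : ℝ) ^ (d.τ i + 1) ≤ 2 ^ (d.τ k) := by
    refine le_trans ?_ h0
    have h4 : (2 : ℝ) ^ (d.τ i + 1) ≤ 2 ^ (d.τ i + 1 + dg (d.y k) + dg (d.y i)) :=
      pow_le_pow_right₀ (by norm_num) (by omega)
    have h5 : (1 : ℝ) ≤ (n1 (d.y i) + 1) * (n1 (d.y k) / mu (d.y k) +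
        (k : ℝ) + 1) * ((i : ℝ) + 1) := by
      have a1 : (1 : ℝ) ≤ n1 (d.y i) + 1 := by linarith
      have a2 : (1 : ℝ) ≤ n1 (d.y k) / mu (d.y k) + (k : ℝ) + 1 := by
        have : (0 : ℝ) ≤ (k : ℝ) := by positivity
        linarith
      have a3 : (1 : ℝ) ≤ (i : ℝ) + 1 := by
        have : (0 : ℝ) ≤ (i : ℝ) := by positivity
        linarith
      exact one_le_mul_of_one_le_of_one_le (one_le_mul_of_one_le_of_one_le a1 a2) a3
    calc (2 : ℝ) ^ (d.τ i + 1) ≤ 2 ^ (d.τ i + 1 + dg (d.y k) + dg (d.y i)) := h4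
      _ = 1 * 2 ^ (d.τ i + 1 + dg (d.y k) + dg (d.y i)) := (one_mul _).symm
      _ ≤ _ := mul_le_mul_of_nonneg_right h5 (by positivity)
  have := (pow_le_pow_iff_right₀ (by norm_num : (1 : ℝ) < 2)).1 h3
  omega

lemma tau_lt_imp {i k : ℕ} (h : d.τ i < d.τ k) : i < k := by
  by_contra hcon
  rcases Nat.lt_or_ge k i with h1 | h1
  · have := mono_tau d h1; omega
  · have : i = k := by omega
    subst this; omega

/-- A convenient form of the growth condition. -/
lemma star' {i k m e : ℕ} (hik : i < k) (he : d.τ k ≤ m + e)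
    (hee : e ≤ 1 + dg (d.y k) + dg (d.y i)) {a b : ℝ} (ha0 : 0 ≤ a) (hb0 : 0 ≤ b)
    (ha : a ≤ n1 (d.y i) + 1)
    (hb : b ≤ n1 (d.y k) / mu (d.y k) + k + 1) : ((i : ℝ) + 1) * 2 ^ (d.τ i) * (a * b) ≤ 2 ^ m := by
  have h0 := d.star i k hik
  have h1 : (2 : ℝ) ^ (d.τ k) ≤ 2 ^ m * 2 ^ e := by
    rw [← pow_add]; exact pow_le_pow_right₀ (by norm_num) he
  have h2 : (2 : ℝ) ^ (d.τ i) * 2 ^ e ≤ 2 ^ (d.τ i + 1 + dg (d.y k) + dg (d.y i)) := by
    rw [← pow_add]; exact pow_le_pow_right₀ (by norm_num) (by omega)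
  have hab : a * b ≤ (n1 (d.y i) + 1) * (n1 (d.y k) / mu (d.y k) + k + 1) :=
    mul_le_mul ha hb hb0 (ha0.trans ha)
  have hi0 : (0 : ℝ) ≤ (i : ℝ) + 1 := by positivity
  have h3 : (((i : ℝ) + 1) * 2 ^ (d.τ i) * (a * b)) * 2 ^ e ≤ 2 ^ m * 2 ^ e := by
    calc (((i : ℝ) + 1) * 2 ^ (d.τ i) * (a * b)) * 2 ^ e
        = ((a * b) * ((i : ℝ) + 1)) * (2 ^ (d.τ i) * 2 ^ e) := by ring
      _ ≤ ((n1 (d.y i) + 1) * (n1 (d.y k) / mu (d.y k) + k + 1) * ((i : ℝ) + 1)) *
          2 ^ (d.τ i + 1 + dg (d.y k) + dg (d.y i)) := by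
          apply mul_le_mul (mul_le_mul_of_nonneg_right hab hi0) h2 (by positivity)
          exact mul_nonneg ((mul_nonneg ha0 hb0).trans hab) hi0
      _ ≤ 2 ^ (d.τ k) := h0
      _ ≤ _ := h1
  exact le_of_mul_le_mul_right h3 (by positivity)

lemma large_mem (b : Bool) {k : ℕ} (hk : 0 < k) :
    (fun i : Bool × ℕ => if i = (b, d.τ k - 1) then (k : 𝕂) else 0) ∈ Fam d := by
  have hτ : 0 < d.τ k := by
    have := mono_tau d hk
    omega
  set n := d.τ k - 1 with hn
  have hkb : (k : ℝ) ≤ n1 (d.y k) / mu (d.y k) + k + 1 := by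
    have := H_ge_one d k
    linarith
  refine ⟨fun i j hj => ?_, fun i m hm => ?_⟩
  · have hH := H_ge_one d i
    by_cases hji : j = (b, n)
    · simp only [hji, if_true]
      have hik : i < k := tau_lt_imp d (by rw [hji] at hj; simp only at hj; omega)
      rw [RCLike.norm_natCast]
      have := star' d (m := n) (e := 1) (a := 1) (b := (k : ℝ)) hik (by omega) (by omega)
        zero_le_one (by positivity) (by have := n1_nonneg (d.y i); linarith) hkb
      rw [one_mul] at this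
      have h1 : (2 : ℝ) ^ (d.τ i) * k ≤ ((i : ℝ) + 1) * 2 ^ (d.τ i) * k := by
        have : (0 : ℝ) ≤ (i : ℝ) * (2 ^ (d.τ i) * k) := by positivity
        linarith
      have h2 : (2 : ℝ) ^ n ≤ n1 (d.y i) / mu (d.y i) * 2 ^ n :=
        le_mul_of_one_le_left (by positivity) hH
      linarith
    · simp only [hji, if_false, norm_zero, mul_zero]
      positivity
  · by_cases hcase : m ≤ n ∧ n ≤ m + dg (d.y i)
    · have hik : i < k := tau_lt_imp d (by omega)
      have h1 : ‖pr ((fun i : Bool × ℕ => if i = (b, n) then (k : 𝕂) else 0) ∘ sh m) (d.y i)‖ ≤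
          n1 (d.y i) * k := by
        refine norm_pr_le _ _ fun j => ?_
        simp only [Function.comp]
        split_ifs
        · rw [RCLike.norm_natCast]
        · rw [norm_zero]; positivity
      have := star' d (m := m) (e := 1 + dg (d.y i)) (a := n1 (d.y i)) (b := (k : ℝ)) hik (by omega)
        (by omega) (n1_nonneg _) (by positivity) (by linarith) hkb
      exact (mul_le_mul_of_nonneg_left h1 (by positivity)).trans this
    · have h0 : pr ((fun i : Bool × ℕ => if i = (b, n) then (k : 𝕂) else 0) ∘ sh m) (d.y i) = 0 := by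
        rw [pr_apply]
        refine Finset.sum_eq_zero fun j _ => ?_
        by_cases hj : sh m j = (b, n)
        · have hj2 : j.2 + m = n := congrArg Prod.snd hj
          have : d.y i j = 0 := eq_zero_of_dg_lt _ (by omega)
          rw [this, zero_mul]
        · simp only [Function.comp, hj, if_false, mul_zero]
      rw [h0, norm_zero, mul_zero]; positivity

/-- Orbits of nonzero vectors are unbounded. -/
lemma large {v : Bool × ℕ →₀ 𝕂} (hv : v ≠ 0) (C : ℝ) (M : ℕ) :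
    ∃ n, M ≤ n ∧ C ≤ N d ((S ^ n) v) := by
  obtain ⟨i0, hi0⟩ := Finsupp.ne_iff.1 hv
  rw [Finsupp.zero_apply] at hi0
  have hpos : 0 < ‖v i0‖ := norm_pos_iff.2 hi0
  obtain ⟨K, hK⟩ := exists_nat_gt (C / ‖v i0‖)
  set k := K + M + i0.2 + 1 with hk
  have hle : ∀ k, k ≤ d.τ k := by
    intro k
    induction k with
    | zero => exact Nat.zero_le _
    | succ k ih =>
      have := mono_tau d (Nat.lt_add_one k)
      omega
  have hkτ := hle k
  refine ⟨d.τ k - 1 - i0.2, by omega, ?_⟩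
  have hmem := large_mem d i0.1 (k := k) (by omega)
  refine le_trans ?_ (le_N d hmem _)
  rw [pr_S_pow]
  have h1 : pr ((fun i : Bool × ℕ => if i = (i0.1, d.τ k - 1) then (k : 𝕂) else 0) ∘
      sh (d.τ k - 1 - i0.2)) v = v i0 * k := by
    rw [pr_apply, Finset.sum_eq_single i0]
    · have : sh (d.τ k - 1 - i0.2) i0 = (i0.1, d.τ k - 1) := by
        simp only [sh]; congr 1; omega
      simp only [Function.comp, this, if_true]
    · intro j _ hj
      have : sh (d.τ k - 1 - i0.2) j ≠ (i0.1, d.τ k - 1) := by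
        intro h
        apply hj
        have h1 := congrArg Prod.fst h
        have h2 := congrArg Prod.snd h
        simp only [sh] at h1 h2
        exact Prod.ext h1 (by omega)
      simp only [Function.comp, this, if_false, mul_zero]
    · intro h; rw [Finsupp.notMem_support_iff.1 h, zero_mul]
  rw [h1, norm_mul, RCLike.norm_natCast]
  rw [div_lt_iff₀ hpos] at hK
  have : (K : ℝ) ≤ k := by exact_mod_cast (by omega : K ≤ k)
  nlinarith

/-! ### The lower bound -/

/-- The functional solving the recurrence given by `y k`. -/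
noncomputable def sol (k n : ℕ) (i : Bool × ℕ) : 𝕂 :=
  if i.2 ≤ n then (if i.1 then -1 else 1) * d.y k (!i.1, n - i.2) / (mu (d.y k) : 𝕂) else 0

lemma norm_sol_le (k n : ℕ) (i : Bool × ℕ) : ‖sol d k n i‖ ≤ n1 (d.y k) / mu (d.y k) := by
  have hmu := d.mu_pos k
  rw [sol]
  split_ifs with h h2
  · rw [norm_div, norm_mul, norm_neg, norm_one, one_mul, RCLike.norm_ofReal, abs_of_pos hmu]
    exact div_le_div_of_nonneg_right (norm_le_n1 _ _) hmu.le
  · rw [norm_div, norm_mul, norm_one, one_mul, RCLike.norm_ofReal, abs_of_pos hmu]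
    exact div_le_div_of_nonneg_right (norm_le_n1 _ _) hmu.le
  · rw [norm_zero]; exact div_nonneg (n1_nonneg _) hmu.le

lemma sol_eq_zero {k n : ℕ} {i : Bool × ℕ} (h : i.2 + dg (d.y k) < n) : sol d k n i = 0 := by
  rw [sol]
  split_ifs with h1 h2
  · rw [eq_zero_of_dg_lt (d.y k) (i := (!i.1, n - i.2)) (by simp only; omega)]; simp
  · rw [eq_zero_of_dg_lt (d.y k) (i := (!i.1, n - i.2)) (by simp only; omega)]; simp
  · rfl

lemma sol_eq_zero' {k n : ℕ} {i : Bool × ℕ} (h : n < i.2) : sol d k n i = 0 := by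
  rw [sol, if_neg (by omega)]

/-- sums over the support as double sums -/
lemma pr_eq (ψ : Bool × ℕ → 𝕂) (y : Bool × ℕ →₀ 𝕂) {L : ℕ} (hL : dg y < L) :
    pr ψ y = ∑ j ∈ range L, (y (false, j) * ψ (false, j) + y (true, j) * ψ (true, j)) := by
  have h1 : pr ψ y = ∑ i ∈ (Finset.univ : Finset Bool) ×ˢ range L, y i * ψ i := by
    rw [pr_apply]
    refine Finset.sum_subset ?_ ?_
    · intro i hi
      rw [Finset.mem_product]
      refine ⟨Finset.mem_univ _, Finset.mem_range.2 (lt_of_le_of_lt ?_ hL)⟩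
      exact Finset.le_sup (f := fun i : Bool × ℕ => i.2) hi
    · intro i _ hi
      rw [Finsupp.notMem_support_iff.1 hi, zero_mul]
  rw [h1, Finset.sum_product_right]
  refine Finset.sum_congr rfl fun j _ => ?_
  rw [Fintype.sum_bool]; ring

lemma pr_sol (k n m : ℕ) : pr (sol d k n ∘ sh m) (d.y k) = 0 := by
  set L := dg (d.y k) + n + 1 with hL
  rw [pr_eq _ _ (L := L) (by omega)]
  by_cases hmn : m ≤ n
  · obtain ⟨r, rfl⟩ : ∃ r, n = m + r := ⟨n - m, by omega⟩
    -- only the terms with `j ≤ r` matter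
    have hz : ∀ j ∈ range L, d.y k (false, j) * (sol d k (m + r) ∘ sh m) (false, j) +
        d.y k (true, j) * (sol d k (m + r) ∘ sh m) (true, j) =
        if j ≤ r then (d.y k (false, j) * d.y k (true, r - j) - d.y k (true, j) * d.y k (false, r - j)) /
          (mu (d.y k) : 𝕂) else 0 := by
      intro j _
      simp only [Function.comp, sh, sol]
      by_cases hj : j ≤ r
      · have e1 : j + m ≤ m + r := by omega
        have e2 : m + r - (j + m) = r - j := by omega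
        simp only [e1, hj, if_true, e2, Bool.not_false, Bool.not_true]
        norm_num
        ring
      · have e1 : ¬ (j + m ≤ m + r) := by omega
        simp only [e1, hj, if_false, mul_zero, add_zero]
    rw [Finset.sum_congr rfl hz, ← Finset.sum_filter]
    have hf : (range L).filter (fun j => j ≤ r) = range (r + 1) := by
      ext j; simp only [Finset.mem_filter, Finset.mem_range]; omega
    rw [hf, ← Finset.sum_div, Finset.sum_sub_distrib]
    have h2 : ∑ j ∈ range (r + 1), d.y k (false, j) * d.y k (true, r - j) =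
        ∑ j ∈ range (r + 1), d.y k (true, j) * d.y k (false, r - j) := by
      rw [← Finset.sum_range_reflect]
      refine Finset.sum_congr rfl fun j hj => ?_
      rw [Finset.mem_range] at hj
      have e1 : r + 1 - 1 - j = r - j := by omega
      have e2 : r - (r - j) = j := by omega
      rw [e1, e2, mul_comm]
    rw [h2, sub_self, zero_div]
  · refine Finset.sum_eq_zero fun j _ => ?_
    simp only [Function.comp, sh, sol]
    have e1 : ¬ (j + m ≤ n) := by omega
    simp only [e1, if_false, mul_zero, add_zero]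

lemma sol_mem {k n : ℕ} (h1 : d.τ k ≤ n) (h2 : n < d.τ (k + 1)) : sol d k n ∈ Fam d := by
  have hHk := H_ge_one d k
  have key : ∀ i, d.τ i ≤ n → i ≤ k := by
    intro i hi
    have := tau_lt_imp d (lt_of_le_of_lt hi h2)
    omega
  refine ⟨fun i j hj => ?_, fun i m hm => ?_⟩
  · have hHi := H_ge_one d i
    by_cases hjn : j.2 ≤ n ∧ n ≤ j.2 + dg (d.y k)
    · have hik := key i (by omega)
      rcases Nat.lt_or_ge i k with hlt | hge
      · have := star' d (m := j.2) (e := dg (d.y k)) (a := 1) (b := n1 (d.y k) / mu (d.y k)) hlt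
          (by omega) (by omega) zero_le_one (by linarith) (by have := n1_nonneg (d.y i); linarith)
          (by have : (0 : ℝ) ≤ (k : ℝ) := by positivity
              linarith)
        rw [one_mul] at this
        have e1 : (2 : ℝ) ^ (d.τ i) * ‖sol d k n j‖ ≤ 2 ^ (d.τ i) * (n1 (d.y k) / mu (d.y k)) :=
          mul_le_mul_of_nonneg_left (norm_sol_le d k n j) (by positivity)
        have e2 : (2 : ℝ) ^ (d.τ i) * (n1 (d.y k) / mu (d.y k)) ≤
            ((i : ℝ) + 1) * 2 ^ (d.τ i) * (n1 (d.y k) / mu (d.y k)) := by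
          have : (0 : ℝ) ≤ (i : ℝ) * (2 ^ (d.τ i) * (n1 (d.y k) / mu (d.y k))) := by positivity
          linarith
        have e3 : (2 : ℝ) ^ j.2 ≤ n1 (d.y i) / mu (d.y i) * 2 ^ j.2 :=
          le_mul_of_one_le_left (by positivity) hHi
        linarith
      · have : i = k := by omega
        subst this
        have e1 : (2 : ℝ) ^ (d.τ i) ≤ 2 ^ j.2 := pow_le_pow_right₀ (by norm_num) hj
        calc (2 : ℝ) ^ (d.τ i) * ‖sol d i n j‖ ≤ 2 ^ j.2 * (n1 (d.y i) / mu (d.y i)) :=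
              mul_le_mul e1 (norm_sol_le d i n j) (norm_nonneg _) (by positivity)
          _ = _ := mul_comm _ _
    · have h0 : sol d k n j = 0 := by
        by_cases hjn1 : j.2 ≤ n
        · exact sol_eq_zero d (by omega)
        · exact sol_eq_zero' d (by omega)
      rw [h0, norm_zero, mul_zero]; positivity
  · by_cases hcase : m ≤ n ∧ n ≤ m + dg (d.y i) + dg (d.y k)
    · have hik := key i (by omega)
      rcases Nat.lt_or_ge i k with hlt | hge
      · have hle : ‖pr (sol d k n ∘ sh m) (d.y i)‖ ≤ n1 (d.y i) * (n1 (d.y k) / mu (d.y k)) :=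
          norm_pr_le _ _ fun j => norm_sol_le d k n _
        have := star' d (m := m) (e := dg (d.y i) + dg (d.y k)) (a := n1 (d.y i))
          (b := n1 (d.y k) / mu (d.y k)) hlt (by omega) (by omega) (n1_nonneg _) (by linarith)
          (by linarith) (by have : (0 : ℝ) ≤ (k : ℝ) := by positivity
                            linarith)
        exact (mul_le_mul_of_nonneg_left hle (by positivity)).trans this
      · have : i = k := by omega
        subst this
        rw [pr_sol, norm_zero, mul_zero]; positivity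
    · have h0 : pr (sol d k n ∘ sh m) (d.y i) = 0 := by
        rw [pr_apply]
        refine Finset.sum_eq_zero fun j _ => ?_
        by_cases hj : j.2 ≤ dg (d.y i)
        · have : sol d k n (sh m j) = 0 := by
            by_cases hm2 : m ≤ n
            · exact sol_eq_zero d (by simp only [sh]; omega)
            · exact sol_eq_zero' d (by simp only [sh]; omega)
          rw [Function.comp, this, mul_zero]
        · rw [eq_zero_of_dg_lt (d.y i) (by omega), zero_mul]
      rw [h0, norm_zero, mul_zero]; positivity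

lemma sol_shift_mem (k n : ℕ) : (sol d k n ∘ sh n) ∈ Fam d := by
  have hmu := d.mu_pos k
  have hz : ∀ i : Bool × ℕ, 0 < i.2 → (sol d k n ∘ sh n) i = 0 := by
    intro i hi
    exact sol_eq_zero' d (by simp only [sh]; omega)
  have hone : ∀ i : Bool × ℕ, i.2 = 0 → ‖(sol d k n ∘ sh n) i‖ ≤ 1 := by
    rintro ⟨b, j⟩ hj
    simp only at hj
    subst hj
    simp only [Function.comp, sh, zero_add, sol, le_refl, if_true, Nat.sub_self]
    rw [norm_div, norm_mul, RCLike.norm_ofReal, abs_of_pos hmu]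
    have h1 : ‖(if b = true then (-1 : 𝕂) else 1)‖ = 1 := by split_ifs <;> simp
    rw [h1, one_mul, div_le_one hmu]
    cases b
    · exact le_max_right _ _
    · exact le_max_left _ _
  refine ⟨fun i j hj => ?_, fun i m hm => ?_⟩
  · have hHi := H_ge_one d i
    rcases Nat.eq_zero_or_pos j.2 with h0 | hpos
    · have ht : d.τ i = 0 := by omega
      rw [ht, h0, pow_zero, one_mul, mul_one]
      exact (hone j h0).trans hHi
    · rw [hz j hpos, norm_zero, mul_zero]; positivity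
  · rcases Nat.eq_zero_or_pos m with h0 | hpos
    · subst h0
      have ht : d.τ i = 0 := by omega
      have hi : i = 0 := by
        by_contra hne
        have := mono_tau d (Nat.pos_of_ne_zero hne)
        omega
      subst hi
      rw [d.y_zero, d.τ_zero]
      have h2 : pr ((sol d k n ∘ sh n) ∘ sh 0) (b0 : Bool × ℕ →₀ 𝕂) = (sol d k n ∘ sh n) (true, 0) := by
        rw [b0, pr, Finsupp.linearCombination_single, one_smul]; rfl
      rw [h2]
      have := hone (true, 0) rfl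
      simpa using this
    · have h2 : pr ((sol d k n ∘ sh n) ∘ sh m) (d.y i) = 0 := by
        rw [pr_apply]
        refine Finset.sum_eq_zero fun j _ => ?_
        have := hz (sh m j) (by simp only [sh]; omega)
        simp only [Function.comp] at this ⊢
        rw [this, mul_zero]
      rw [h2, norm_zero, mul_zero]; positivity

/-- the first generator -/
noncomputable def a0 : Bool × ℕ →₀ 𝕂 := Finsupp.single (false, 0) 1

lemma exists_stage (n : ℕ) : ∃ k, d.τ k ≤ n ∧ n < d.τ (k + 1) := by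
  induction n with
  | zero =>
    refine ⟨0, by rw [d.τ_zero], ?_⟩
    have := mono_tau d (Nat.lt_add_one 0)
    omega
  | succ n ih =>
    obtain ⟨k, h1, h2⟩ := ih
    by_cases h : n + 1 < d.τ (k + 1)
    · exact ⟨k, by omega, h⟩
    · refine ⟨k + 1, by omega, ?_⟩
      have := mono_tau d (Nat.lt_add_one (k + 1))
      omega

/-- The lower bound: at each time one of the two balls is not moved near `0`. -/
theorem lower (n : ℕ) : (∀ x, 1 ≤ N d ((S ^ n) x) + N d (x - a0)) ∨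
    (∀ x, 1 ≤ N d ((S ^ n) x) + N d (x - b0)) := by
  obtain ⟨k, h1, h2⟩ := exists_stage d n
  have hmu := d.mu_pos k
  set φ := sol d k n ∘ sh n with hφ
  have hgen : ∀ (c x : Bool × ℕ →₀ 𝕂), ‖pr φ c‖ ≤ N d ((S ^ n) x) + N d (x - c) := by
    intro c x
    have e1 : ‖pr φ x‖ ≤ N d ((S ^ n) x) := by
      have := le_N d (sol_mem d h1 h2) ((S ^ n) x)
      rwa [pr_S_pow] at this
    have e2 : ‖pr φ (x - c)‖ ≤ N d (x - c) := le_N d (sol_shift_mem d k n) _
    have e3 : pr φ c = pr φ x - pr φ (x - c) := by rw [map_sub]; ring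
    rw [e3]
    exact (norm_sub_le _ _).trans (add_le_add e1 e2)
  have ha : pr φ a0 = d.y k (true, 0) / (mu (d.y k) : 𝕂) := by
    rw [a0, pr, Finsupp.linearCombination_single, one_smul, hφ]
    simp [sol, sh]
  have hb : pr φ b0 = - d.y k (false, 0) / (mu (d.y k) : 𝕂) := by
    rw [b0, pr, Finsupp.linearCombination_single, one_smul, hφ]
    simp [sol, sh]
  rcases max_choice ‖d.y k (false, 0)‖ ‖d.y k (true, 0)‖ with h | h
  · right
    intro x
    refine le_trans (le_of_eq ?_) (hgen b0 x)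
    rw [hb, norm_div, norm_neg, RCLike.norm_ofReal, abs_of_pos hmu, ← h]
    exact (div_self hmu.ne').symm
  · left
    intro x
    refine le_trans (le_of_eq ?_) (hgen a0 x)
    rw [ha, norm_div, RCLike.norm_ofReal, abs_of_pos hmu, ← h]
    exact (div_self hmu.ne').symm

end Pool.Agent.Q67.LYC
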