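import Mathlib
import Pool.Agent.Q67.LYC.Norm

/-!
The Banach space and the operator.
-/

open UniformSpace

namespace Pool.Agent.Q67.LYC

variable {𝕂 : Type} [RCLike 𝕂] (d : Data 𝕂)

/-- Finitely supported vectors with the norm `N d`. -/
def V (_ : Data 𝕂) : Type := Bool × ℕ →₀ 𝕂

noncomputable instance : AddCommGroup (V d) := inferInstanceAs (AddCommGroup (Bool × ℕ →₀ 𝕂))
noncomputable instance : Module 𝕂 (V d) := inferInstanceAs (Module 𝕂 (Bool × ℕ →₀ 𝕂))
noncomputable instance : Norm (V d) := ⟨fun x => N d x⟩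

lemma core : SeminormedSpace.Core 𝕂 (V d) where
  norm_nonneg x := N_nonneg d x
  norm_smul c x := N_smul d c x
  norm_triangle x y := N_add d x y

noncomputable instance : SeminormedAddCommGroup (V d) := SeminormedAddCommGroup.ofCore (core d)
noncomputable instance : NormedSpace 𝕂 (V d) where
  norm_smul_le c x := N_smul_le d c x

lemma norm_def (x : V d) : ‖x‖ = N d x := rfl

/-- the operator on `V d` -/
noncomputable def SV : V d →L[𝕂] V d :=
  LinearMap.mkContinuous (S : (Bool × ℕ →₀ 𝕂) →ₗ[𝕂] (Bool × ℕ →₀ 𝕂)) 2 (N_S d)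

/-- the embedding of the normed space -/
noncomputable def em : V d →L[𝕂] Completion (V d) := Completion.toComplL

lemma dense_em : DenseRange (em d) := Completion.denseRange_coe

lemma ind_em : IsUniformInducing (em d) := (Completion.isUniformInducing_coe (V d))

/-- the operator -/
noncomputable def TX : Completion (V d) →L[𝕂] Completion (V d) := ((em d).comp (SV d)).extend (em d)

lemma TX_em (x : V d) : TX d (em d x) = em d (SV d x) :=
  ContinuousLinearMap.extend_eq _ (dense_em d) (ind_em d) x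

/-- the identity as a linear map -/
def iv : (Bool × ℕ →₀ 𝕂) →ₗ[𝕂] V d where
  toFun x := x
  map_add' _ _ := rfl
  map_smul' _ _ := rfl

/-- the embedding of the space of finitely supported vectors -/
noncomputable def eF : (Bool × ℕ →₀ 𝕂) →ₗ[𝕂] Completion (V d) :=
  (em d : V d →ₗ[𝕂] Completion (V d)).comp (iv d)

lemma norm_eF (x : Bool × ℕ →₀ 𝕂) : ‖eF d x‖ = N d x := Completion.norm_coe (iv d x)

lemma dense_eF : DenseRange (eF d) := by
  have h : Set.range (eF d) = Set.range (em d) := by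
    ext z
    constructor
    · rintro ⟨x, rfl⟩; exact ⟨iv d x, rfl⟩
    · rintro ⟨x, rfl⟩; exact ⟨x, rfl⟩
  rw [DenseRange, h]; exact dense_em d

lemma TX_eF (x : Bool × ℕ →₀ 𝕂) : TX d (eF d x) = eF d (S x) := TX_em d (iv d x)

lemma TX_pow_eF (n : ℕ) (x : Bool × ℕ →₀ 𝕂) : ((TX d) ^ n) (eF d x) = eF d ((S ^ n) x) := by
  induction n with
  | zero => rfl
  | succ n ih =>
    rw [pow_succ', pow_succ', Module.End.mul_apply, ← TX_eF, ← ih]
    rfl

lemma lower_X (n : ℕ) {c : Bool × ℕ →₀ 𝕂}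
    (h : ∀ x : Bool × ℕ →₀ 𝕂, 1 ≤ N d ((S ^ n) x) + N d (x - c)) (x : Completion (V d)) :
    1 ≤ ‖((TX d) ^ n) x‖ + ‖x - eF d c‖ := by
  have hcl : IsClosed {x : Completion (V d) | 1 ≤ ‖((TX d) ^ n) x‖ + ‖x - eF d c‖} :=
    isClosed_le continuous_const ((((TX d) ^ n).continuous.norm).add
      ((continuous_id.sub continuous_const).norm))
  refine (dense_eF d).induction_on x hcl ?_
  intro x
  show 1 ≤ ‖((TX d) ^ n) (eF d x)‖ + ‖eF d x - eF d c‖
  rw [TX_pow_eF, norm_eF, ← map_sub, norm_eF]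
  exact h x

/-- first reduction: vectors without level-0 coordinates are shifts -/
lemma exists_shift {v : Bool × ℕ →₀ 𝕂} (hv : v ≠ 0) : ∃ (s : ℕ) (w : Bool × ℕ →₀ 𝕂),
    v = (S ^ s) w ∧ 0 < mu w := by
  classical
  have hne : v.support.Nonempty := Finsupp.support_nonempty_iff.2 hv
  obtain ⟨i0, hi0, hmin⟩ := Finset.exists_min_image v.support (fun i => i.2) hne
  set s := i0.2 with hs
  have hinj : Function.Injective (sh s) := by
    intro i j h
    have h1 := congrArg Prod.fst h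
    have h2 := congrArg Prod.snd h
    simp only [sh] at h1 h2
    exact Prod.ext h1 (by omega)
  have hsub : (↑v.support : Set (Bool × ℕ)) ⊆ Set.range (sh s) := by
    intro i hi
    have := hmin i hi
    exact ⟨(i.1, i.2 - s), by simp only [sh]; exact Prod.ext rfl (by simp only; omega)⟩
  have hpow : ∀ (n : ℕ) (w : Bool × ℕ →₀ 𝕂), (S ^ n) w = Finsupp.mapDomain (sh n) w := by
    intro n
    induction n with
    | zero =>
      intro w
      have : (sh 0 : Bool × ℕ → Bool × ℕ) = id := by funext i; rfl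
      rw [this, Finsupp.mapDomain_id]; rfl
    | succ n ih =>
      intro w
      rw [pow_succ', Module.End.mul_apply, ih, S, Finsupp.lmapDomain_apply, ← Finsupp.mapDomain_comp]
      congr 1
  refine ⟨s, Finsupp.comapDomain (sh s) v hinj.injOn, ?_, ?_⟩
  · rw [hpow]
    exact (Finsupp.mapDomain_comapDomain _ hinj v hsub).symm
  · have h1 : (Finsupp.comapDomain (sh s) v hinj.injOn) (i0.1, 0) = v i0 := by
      rw [Finsupp.comapDomain_apply]
      congr 1
      simp only [sh, zero_add]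
      exact Prod.ext rfl rfl
    have h2 : 0 < ‖(Finsupp.comapDomain (sh s) v hinj.injOn) (i0.1, 0)‖ := by
      rw [h1]; exact norm_pos_iff.2 (Finsupp.mem_support_iff.1 hi0)
    rcases hb : i0.1 with _ | _
    · rw [hb] at h2
      exact lt_of_lt_of_le h2 (le_max_left _ _)
    · rw [hb] at h2
      exact lt_of_lt_of_le h2 (le_max_right _ _)

lemma N_S_pow (n : ℕ) (x : Bool × ℕ →₀ 𝕂) : N d ((S ^ n) x) ≤ 2 ^ n * N d x := by
  induction n with
  | zero => simp
  | succ n ih =>
    rw [pow_succ', Module.End.mul_apply]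
    refine (N_S d _).trans ?_
    rw [pow_succ]; linarith

lemma small' {v : Bool × ℕ →₀ 𝕂} (hv : v ≠ 0) {ε : ℝ} (hε : 0 < ε) (M : ℕ) :
    ∃ n, M ≤ n ∧ N d ((S ^ n) v) ≤ ε := by
  obtain ⟨s, w, rfl, hw⟩ := exists_shift hv
  obtain ⟨n, hn, h⟩ := small d hw (ε := ε / 2 ^ s) (by positivity) M
  refine ⟨n, hn, ?_⟩
  have h1 : (S ^ n) ((S ^ s) w) = (S ^ s) ((S ^ n) w) := by
    rw [← Module.End.mul_apply, ← Module.End.mul_apply, ← pow_add, ← pow_add, add_comm]
  rw [h1]
  refine (N_S_pow d s _).trans ?_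
  rw [le_div_iff₀ (by positivity)] at h
  linarith

/-- Summary: a Banach space over `𝕂`, an operator, a dense subspace of vectors with irregular orbits, and
two vectors such that at each time the orbit of a ball around one of them stays away from `0`. -/
theorem main (𝕂 : Type) [RCLike 𝕂] : ∃ (X : Type) (_ : NormedAddCommGroup X) (_ : NormedSpace 𝕂 X)
    (_ : CompleteSpace X) (T : X →L[𝕂] X) (Y : Submodule 𝕂 X) (a b : X), Dense (Y : Set X) ∧
    (∀ y ∈ Y, y ≠ 0 → (∀ ε : ℝ, 0 < ε → ∀ M : ℕ, ∃ n, M ≤ n ∧ ‖(T ^ n) y‖ ≤ ε) ∧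
      (∀ C : ℝ, ∀ M : ℕ, ∃ n, M ≤ n ∧ C ≤ ‖(T ^ n) y‖)) ∧
    ∀ n : ℕ, (∀ x, 1 ≤ ‖(T ^ n) x‖ + ‖x - a‖) ∨ (∀ x, 1 ≤ ‖(T ^ n) x‖ + ‖x - b‖) := by
  obtain ⟨d⟩ := exists_data 𝕂
  refine ⟨Completion (V d), inferInstance, inferInstance, inferInstance, TX d,
    LinearMap.range (eF d), eF d a0, eF d b0, ?_, ?_, ?_⟩
  · exact dense_eF d
  · rintro _ ⟨v, rfl⟩ hne
    have hv : v ≠ 0 := by
      rintro rfl
      exact hne (map_zero _)
    refine ⟨fun ε hε M => ?_, fun C M => ?_⟩
    · obtain ⟨n, hn, h⟩ := small' d hv hε M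
      refine ⟨n, hn, ?_⟩
      rw [TX_pow_eF, norm_eF]; exact h
    · obtain ⟨n, hn, h⟩ := large d hv C M
      refine ⟨n, hn, ?_⟩
      rw [TX_pow_eF, norm_eF]; exact h
  · intro n
    rcases lower d n with h | h
    · left; intro x; exact lower_X d n h x
    · right; intro x; exact lower_X d n h x

end Pool.Agent.Q67.LYC
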